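import Pool.Agent.H15T.CongE

set_option autoImplicit false

/-!
MP_05dcdc_nt (converse of Tunnell's theorem, odd squarefree n): in the classes `1` and `3` mod `8`
(those in which the hypothesis `2 |A_n| = |B_n|` is a real condition) every interval
`[X, X + C X^(3/4) (1 + log X)^(3/2)]` contains a squarefree congruent number. The starting result
`ShortIntervals` has the length `X^(5/6)`.
-/

namespace Pool.Agent.Results.MP_05dcdc_nt.ShortIntervals34

/-- There is a constant `C` such that for every real `X ≥ 1` and `j = 1, 3` some squarefree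
congruent number `n ≡ j` mod `8` lies in `[X, X + C X^(3/4) (1 + log X)^(3/2)]`. -/
theorem result : ∃ C : ℝ, 0 < C ∧ ∀ X : ℝ, 1 ≤ X → ∀ j : ℕ, j = 1 ∨ j = 3 →
    ∃ n : ℕ, X ≤ n ∧ (n : ℝ) ≤ X + C * (X ^ (3 / 4 : ℝ) * (1 + Real.log X) ^ (3 / 2 : ℝ)) ∧
      Squarefree n ∧ n % 8 = j ∧
      ∃ a b c : ℚ, 0 < a ∧ 0 < b ∧ 0 < c ∧ a ^ 2 + b ^ 2 = c ^ 2 ∧ (n : ℚ) = a * b / 2 := by
  refine ⟨3 * 330000 * 4000000 ^ 3 * Real.sqrt (440000 * 4000000 ^ 3), by positivity, ?_⟩
  intro X hX j hj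
  rcases hj with rfl | rfl
  · exact Pool.Agent.H15T.Cong.exists_n X hX 2 7 1 (by omega)
  · exact Pool.Agent.H15T.Cong.exists_n X hX 2 5 3 (by omega)

end Pool.Agent.Results.MP_05dcdc_nt.ShortIntervals34
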